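import Mathlib
import Pool.Agent.H228R7.Asm
import Pool.Agent.H228R7.Kite

set_option autoImplicit false

namespace Pool.Agent.Results.MP_5f8029_co.KiteRamsey

/-- The four vertices of the kite `K_a`, inscribed in the unit circle. -/
noncomputable def kite (a : ℝ) : Fin 4 → EuclideanSpace ℝ (Fin 2) :=
  ![!₂[1, 0], !₂[-1, 0], !₂[a, √(1 - a ^ 2)], !₂[a, -√(1 - a ^ 2)]]

/-- Every kite `K_a`, `-1 < a < 1` (in particular every one with `a` transcendental), is Ramsey. -/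
theorem result : ∀ a : ℝ, -1 < a → a < 1 → ∀ k : ℕ, ∃ n : ℕ, 2 ≤ n ∧
    ∀ c : EuclideanSpace ℝ (Fin n) → Fin k, ∃ f : Fin 4 → EuclideanSpace ℝ (Fin n),
      (∀ i j, dist (f i) (f j) = dist (kite a i) (kite a j)) ∧ ∀ i j, c (f i) = c (f j) := by
  intro a ha ha' k
  obtain ⟨n, D, hD, hn⟩ := Pool.Agent.H228R7.asm (P := Fin 4) 0
    (fun x y => (Pool.Agent.H228R7.KX a x - Pool.Agent.H228R7.KX a y) ^ 2 +
      (Pool.Agent.H228R7.KY a x - Pool.Agent.H228R7.KY a y) ^ 2)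
    (fun M hM => Pool.Agent.H228R7.kfam a ha ha' M hM) k
  refine ⟨n + 2, by omega, fun c => ?_⟩
  obtain ⟨f, hf, hc⟩ := hn (fun v => c (WithLp.toLp 2 (Fin.append (fun i => v i / √D)
    (fun _ : Fin 2 => (0 : ℝ)))))
  refine ⟨fun x => WithLp.toLp 2 (Fin.append (fun i => f x i / √D)
    (fun _ : Fin 2 => (0 : ℝ))), ?_, fun i j => hc i j⟩
  intro i j
  rw [EuclideanSpace.dist_eq, EuclideanSpace.dist_eq]
  congr 1
  have hs : √D ^ 2 = D := Real.sq_sqrt hD.le
  have h1 : ∑ l : Fin (n + 2), dist (Fin.append (fun l => f i l / √D) (fun _ : Fin 2 => (0 : ℝ)) l)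
      (Fin.append (fun l => f j l / √D) (fun _ : Fin 2 => (0 : ℝ)) l) ^ 2 =
      (∑ l, (f i l - f j l) ^ 2) / D := by
    rw [Fin.sum_univ_add]
    simp only [Fin.append_left, Fin.append_right, Real.dist_eq, sq_abs]
    rw [Finset.sum_div]
    simp only [sub_self]
    have h2 : ∀ l, (f i l / √D - f j l / √D) ^ 2 = (f i l - f j l) ^ 2 / D := by
      intro l
      rw [← sub_div, div_pow, hs]
    simp [h2]
  have h3 : ∑ l : Fin 2, dist ((kite a i) l) ((kite a j) l) ^ 2 =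
      (Pool.Agent.H228R7.KX a i - Pool.Agent.H228R7.KX a j) ^ 2 +
      (Pool.Agent.H228R7.KY a i - Pool.Agent.H228R7.KY a j) ^ 2 := by
    rw [Fin.sum_univ_two, Real.dist_eq, Real.dist_eq, sq_abs, sq_abs]
    have hx : ∀ z, (kite a z) 0 = Pool.Agent.H228R7.KX a z := by
      intro z; fin_cases z <;> simp [kite, Pool.Agent.H228R7.KX]
    have hy : ∀ z, (kite a z) 1 = Pool.Agent.H228R7.KY a z := by
      intro z; fin_cases z <;> simp [kite, Pool.Agent.H228R7.KY]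
    rw [hx, hx, hy, hy]
  rw [h3]
  refine h1.trans ?_
  rw [hf i j]
  field_simp

end Pool.Agent.Results.MP_5f8029_co.KiteRamsey
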